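import Mathlib
import Pool.Agent.Y210.EF.Vec
import Pool.Agent.Y939.NC.Reg

set_option autoImplicit false

/-!
# Prime divisors on the blow-up at generic points in characteristic zero or `p > H`: `h¹ = 0`

Let `k` be a field, and let `P i`, `i < s`, be points of the plane over `k` whose `2 s`
coordinates are algebraically independent over the prime field.

1. If the vector `w` of multiplicities is almost regular (`Pool.Agent.Y939.NC.AlmostRegular`: regular
   on some of the points and at most `1` at the others), `c = ∑ (w i + 1).choose 2 ≥ 3`, and the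
   characteristic of `k` is zero or larger than `(c!) ^ 2 * 4 ^ (c √(2 c))`, then for EVERY `d` the class
   `d H - ∑ w i E i` has `h⁰ = max (0, χ)`, and `h¹ = 0` if it is effective; in particular `h¹(C) = 0`
   for all prime divisors `C` with these multiplicities.
2. The same holds for every single tractable class `(d; w)` (below a regular vector, or carried by
   finitely many reflections to a good standard class) if the characteristic is zero or larger than
   `r! 2 ^ (r d)`, `r = min ((d + 2).choose 2) c`.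
-/

namespace Pool.Agent.Results.MP_0dccba_ag.PositiveCharacteristic

open MvPolynomial Pool.Agent.Y939.NC

section defs
variable {k : Type} [Field k]

/-- `H⁰(D)` for `D = d H - ∑ w i E i`: the forms of degree `d` which vanish to order at least `w i` at
the points `(P i 0 : P i 1 : 1)`. -/
noncomputable def sections {s : ℕ} (P : Fin s → Fin 2 → k) (d : ℕ) (w : Fin s → ℕ) :
    Submodule k (MvPolynomial (Fin 3) k) :=
  homogeneousSubmodule (Fin 3) k d ⊓ Submodule.restrictScalars k
    (⨅ i : Fin s, Ideal.span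
      ({X 0 - C (P i 0) * X 2, X 1 - C (P i 1) * X 2} : Set (MvPolynomial (Fin 3) k)) ^ (w i))

/-- `h⁰(D)` -/
noncomputable def hZero {s : ℕ} (P : Fin s → Fin 2 → k) (d : ℕ) (w : Fin s → ℕ) : ℤ :=
  (Module.finrank k ↥(sections P d w) : ℤ)

/-- The Euler characteristic. -/
def chi {s : ℕ} (d : ℕ) (w : Fin s → ℕ) : ℤ :=
  ((d + 2).choose 2 : ℤ) - ∑ i, ((w i + 1).choose 2 : ℤ)

/-- `h¹(D) = h⁰(D) - χ(D)`, as `h²(D) = 0` for `d ≥ 0`. -/
noncomputable def hOne {s : ℕ} (P : Fin s → Fin 2 → k) (d : ℕ) (w : Fin s → ℕ) : ℤ :=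
  hZero P d w - chi d w

/-- The class is effective. -/
def Effective {s : ℕ} (P : Fin s → Fin 2 → k) (d : ℕ) (w : Fin s → ℕ) : Prop :=
  ∃ G ∈ sections P d w, G ≠ 0

/-- The points are generic: their coordinates are algebraically independent over the prime field. -/
def Generic {s : ℕ} (P : Fin s → Fin 2 → k) : Prop :=
  AlgebraicIndependent (⊥ : Subfield k) (fun ij : Fin s × Fin 2 => P ij.1 ij.2)

end defs

/-- The characteristic of `k` is zero or larger than `H`. -/
def CharAbove (k : Type) [Field k] (H : ℕ) : Prop := CharZero k ∨ ∃ p : ℕ, CharP k p ∧ H < p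

/-- The number `c = ∑ w i (w i + 1) / 2` of the conditions. -/
def conds {s : ℕ} (w : Fin s → ℕ) : ℕ := ∑ i, (w i + 1).choose 2

/-- The class `(d; w)` is standard: `d ≥ w i + w j + w l`. -/
def Standard {s : ℕ} (d : ℕ) (w : Fin s → ℕ) : Prop :=
  ∀ i j l : Fin s, i ≠ j → i ≠ l → j ≠ l → w i + w j + w l ≤ d

/-- The reflection of the class `a = (d; w)`, `d H - ∑ w l E l`, in the class
`H - E (i 0) - E (i 1) - E (i 2)`: with `δ = d - w (i 0) - w (i 1) - w (i 2)`, the numbers
`d`, `w (i 0)`, `w (i 1)`, `w (i 2)` are increased by `δ`. -/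
def reflect {s : ℕ} (i : Fin 3 → Fin s) (a : ℤ × (Fin s → ℤ)) : ℤ × (Fin s → ℤ) :=
  (a.1 + (a.1 - a.2 (i 0) - a.2 (i 1) - a.2 (i 2)),
    fun l => a.2 l + if l = i 0 ∨ l = i 1 ∨ l = i 2 then a.1 - a.2 (i 0) - a.2 (i 1) - a.2 (i 2)
      else 0)

/-- Finitely many reflections carry `(d; w)` to `(d'; w')`. -/
def Carries {s : ℕ} (d : ℕ) (w : Fin s → ℕ) (d' : ℕ) (w' : Fin s → ℕ) : Prop :=
  Relation.ReflTransGen
    (fun a b : ℤ × (Fin s → ℤ) => ∃ i : Fin 3 → Fin s, Function.Injective i ∧ b = reflect i a)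
    ((d : ℤ), fun l => (w l : ℤ)) ((d' : ℤ), fun l => (w' l : ℤ))

/-- Tractable classes: those below a regular vector, and those which finitely many reflections carry
to a good standard class. -/
def Tractable (N0 : ℕ) {s : ℕ} (d : ℕ) (w : Fin s → ℕ) : Prop :=
  Below N0 d w ∨ (4 ≤ s ∧ ∃ (d' : ℕ) (w' : Fin s → ℕ), Carries d w d' w' ∧ Standard d' w' ∧
    Good N0 d' w')

theorem of_ed {k : Type} [Field k] {s : ℕ} {P : Fin s → Fin 2 → k} {d : ℕ} {w : Fin s → ℕ}
    (h : Pool.Agent.Y210.EF.ED k w P d) :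
    hZero P d w = max 0 (chi d w) ∧ (Effective P d w → hOne P d w = 0) := by
  have h1 : Module.finrank k ↥(sections P d w) =
      Nat.choose (d + 2) 2 - ∑ i, Nat.choose (w i + 1) 2 := h
  have h2 : ∑ i, ((w i + 1).choose 2 : ℤ) = ((∑ i, Nat.choose (w i + 1) 2 : ℕ) : ℤ) := by
    push_cast
    rfl
  refine ⟨?_, ?_⟩
  · unfold hZero chi
    rw [h1, h2]
    omega
  · rintro ⟨G, hG, hG0⟩
    have hG' := Submodule.mem_inf.1 hG
    have hGm := hG'.2
    rw [Submodule.restrictScalars_mem, Ideal.mem_iInf] at hGm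
    have h3 : Module.finrank k ↥(sections P d w) + ∑ i, Nat.choose (w i + 1) 2 =
        Nat.choose (d + 2) 2 :=
      Pool.Agent.H932R3.ExpDim.eff h hG0 ((mem_homogeneousSubmodule _ _).1 hG'.1) hGm
    unfold hOne hZero chi
    rw [h2]
    omega

/-- generic points are no zeros of a polynomial which is not zero over the field -/
theorem generic_ne {k : Type} [Field k] {s : ℕ} {P : Fin s → Fin 2 → k} (hP : Generic P)
    {Φ : MvPolynomial (Fin s × Fin 2) ℤ} (h : Φ.map (Int.castRingHom k) ≠ 0) :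
    Pool.Agent.Y210.EF.ev P Φ ≠ 0 := by
  intro h0
  have h1 : MvPolynomial.aeval (fun ij : Fin s × Fin 2 => P ij.1 ij.2)
      (Φ.map (Int.castRingHom (⊥ : Subfield k))) = 0 := by
    rw [MvPolynomial.aeval_def, MvPolynomial.eval₂_map, ← h0]
    unfold Pool.Agent.Y210.EF.ev
    rw [coe_eval₂Hom]
    congr 1
  have h2 := hP.eq_zero_of_aeval_eq_zero _ h1
  apply h
  have h3 := congrArg (MvPolynomial.map (algebraMap (⊥ : Subfield k) k)) h2
  rw [MvPolynomial.map_map, map_zero] at h3
  rw [← h3]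
  congr 1

/-- **Main result.** -/
theorem result : ∃ N0 : ℕ, ∀ (k : Type) [Field k] (s : ℕ) (P : Fin s → Fin 2 → k),
    Generic P →
    (∀ w : Fin s → ℕ, AlmostRegular N0 w → 3 ≤ conds w →
      CharAbove k ((conds w).factorial ^ 2 * 4 ^ (conds w * Nat.sqrt (2 * conds w))) →
      ∀ d : ℕ, hZero P d w = max 0 (chi d w) ∧ (Effective P d w → hOne P d w = 0)) ∧
    (∀ (d : ℕ) (w : Fin s → ℕ), Tractable N0 d w →
      CharAbove k ((min ((d + 2).choose 2) (conds w)).factorial *
        2 ^ (min ((d + 2).choose 2) (conds w) * d)) →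
      hZero P d w = max 0 (chi d w) ∧ (Effective P d w → hOne P d w = 0)) := by
  obtain ⟨N0, hN0⟩ := reg_exp
  refine ⟨N0, fun k _ s Q hQ => ?_⟩
  obtain ⟨K, _, _, P, hP⟩ := Pool.Agent.TH442.NF.exists_generic s
  refine ⟨fun w hw hc hk d => ?_, fun d w hw hk => ?_⟩
  · obtain ⟨Φ, h1, h2, h3, h4⟩ := Pool.Agent.Y210.EF.spread_all (w := w) hc ∅ (Or.inl rfl)
      (fun d _ => almost_exp hN0 hw hP d)
    exact of_ed (h4 k Q (generic_ne hQ (Pool.Agent.Y210.EF.map_ne_zero_of_lt h1 h3 hk)) d
      (Set.notMem_empty d))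
  · have hED : Pool.Agent.Y210.EF.ED K w P d := by
      rcases hw with h | ⟨hn4, d', w', hcar, hst, hG⟩
      · exact below_exp hN0 h hP
      · exact Pool.Agent.TH442.NF.up_enef hP hcar (Pool.Agent.TH442.NF.enef_of_std hn4 P hst)
          (good_exp hN0 hn4 hst hG hP)
    obtain ⟨Φ, h1, h2, h3, h4⟩ := Pool.Agent.Y210.EF.one_ed hED
    rw [← pow_mul, mul_comm d] at h3
    exact of_ed (h4 k Q (generic_ne hQ (Pool.Agent.Y210.EF.map_ne_zero_of_lt h1 h3 hk)))

end Pool.Agent.Results.MP_0dccba_ag.PositiveCharacteristic
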