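import Mathlib
import Pool.Agent.Y205.AV.Large
import Pool.Agent.Y939.NC.Reg

set_option autoImplicit false

/-!
# Prime divisors with `h¹ ≠ 0` have a special standard form which is neither large nor good

Let `k` be a field of characteristic zero and `X` the blow-up of the plane at `s ≥ 4` generic
points. Let `C` be a prime divisor of class `(d, w)` on `X`. Then `h¹ (C) = 0`, or finitely many
quadratic transformations carry `(d, w)` to a standard class `(d1, w1)` with
`h⁰ (d1, w1) = h⁰ (C)`, which is special and which is neither `Large` nor `Good`.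

A class `(d; w)` is `Large` (`Pool.Agent.Y205.AV.Large`) if there are a set `S` of points and numbers
`μ`, `t` such that `w i ≤ μ` for `i ∈ S`, `w i ≤ 1` for `i ∉ S`, and with
`χ = (d + 2).choose 2 - ∑_S (w i + 1).choose 2`
* `∑_S w i + 4 |χ| ≥ 25000 (μ + 1) ^ 2`, or
* `|χ| ≥ ∑_S w i + 26 (μ + 1) ^ 2`, or
* `∑_S w i ^ 2 ≥ 40000 t μ ^ 2`, `S` is not empty, `w i ≥ 1` on `S`, with at most `t` values there.

It is `Good` (`Pool.Agent.Y939.NC.Good`) if `√k d < ∑ w` on some `k ≥ 10` of the points, or if it is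
below a regular vector, or if `d` is large and there are at most five large multiplicities.
-/

namespace Pool.Agent.Results.MP_0dccba_ag.PrimeLargeForms

open MvPolynomial Pool.Agent.TH167.SHDefs
open Pool.Agent.Y536.SH (Standard)
open Pool.Agent.Y205.AV (Large)
open Pool.Agent.Y939.NC (Good)

/-- `h¹` of the class `d H - ∑ w i E i`: the dimension of the linear system minus the virtual one. -/
noncomputable def hOne {k : Type} [Field k] {s : ℕ} (P : Fin s → Fin 2 → k) (d : ℕ)
    (w : Fin s → ℕ) : ℤ := dimL P d w - virtdim d w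

theorem result : ∃ N0 : ℕ, ∀ (k : Type) [Field k] [CharZero k] (s : ℕ), 4 ≤ s →
    ∀ (P : Fin s → Fin 2 → k),
      AlgebraicIndependent ℚ (fun ij : Fin s × Fin 2 => P ij.1 ij.2) →
      ∀ (d : ℕ) (w : Fin s → ℕ) (C : MvPolynomial (Fin 3) k), Curve P C d w →
        hOne P d w = 0 ∨ ∃ (d1 : ℕ) (w1 : Fin s → ℕ),
          Relation.ReflTransGen Quadratic (d, w) (d1, w1) ∧ Standard d1 w1 ∧
          Special P d1 w1 ∧ dimL P d1 w1 = dimL P d w ∧ ¬ Large d1 w1 ∧ ¬ Good N0 d1 w1 := by
  obtain ⟨N0, hN0⟩ := Pool.Agent.Y939.NC.reg_exp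
  refine ⟨N0, fun k _ _ s hs P hP d w C hC => ?_⟩
  obtain ⟨r, rfl⟩ : ∃ r, s = r + 4 := ⟨s - 4, by omega⟩
  by_cases h : dimL P d w = virtdim d w
  · left
    unfold hOne
    omega
  · right
    obtain ⟨d1, w1, h1, h2, h3, h4, h5⟩ := Pool.Agent.Y536.SH.prime_full
      (Q := fun d' w' => Large d' w' ∨ Good N0 d' w')
      (fun hP d1 w1 hr hG => hG.elim (fun h => Pool.Agent.Y205.AV.large_exp h hP)
        fun h => Pool.Agent.Y939.NC.good_exp hN0 hs hr h hP) hP hC h
    exact ⟨d1, w1, h1, h2, h3, h4, fun h => h5 (Or.inl h), fun h => h5 (Or.inr h)⟩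

end Pool.Agent.Results.MP_0dccba_ag.PrimeLargeForms
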