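import Mathlib
import Pool.Agent.Y536.SH.Tame
import Pool.Agent.Y536.SH.Full

set_option autoImplicit false

/-!
# Prime divisors with `h¹ ≠ 0` have a special standard form outside of all known families

Let `k` be a field of characteristic zero and `X` the blow-up of the plane at `s ≥ 4` generic
points. Let `C` be a prime divisor of class `(d, w)` on `X`. Then `h¹ (C) = 0`, or finitely many
quadratic transformations carry `(d, w)` to a standard class `(d1, w1)` with
`h⁰ (d1, w1) = h⁰ (C)`, which is special and which is not `Good`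
(`Pool.Agent.Y536.SH.Good`). In particular `h¹ (C) = 0` for every prime divisor which is in the Weyl
group orbit of a good standard class.

A standard class is good if, for some `k ≥ 10` of the points, `√k d < ∑ w` on them, or `w` is at
most a tame vector `v` on them, equal to it or with `χ (d; v) ≥ 0`, and at most `1` at the other
points; or if `d ≥ 2 ^ 17 (4 m ^ 2 + 8 m + 5) ^ 4` for some `m ≥ 1` such that at most five
multiplicities are larger than `m`, or those larger than `m` have a sum
`≤ 2 d - (4 m ^ 2 + 8 m + 5)`. Tame are the constant vectors on at least `37` (or `21`) points, the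
vectors of numbers `m` and `m + 1` on many points (or on `4 N ≥ 144`, `4 ^ (j + 2)`,
`9 * 4 ^ (j + 1)`, `13 * 4 ^ j` points), those with values in `[m, m + s]` if `1000 (s + 1) ≤ √k`
and `1000000 (s + 1) ^ 3 ≤ m √k`, and the vectors with several values of arbitrary ratios, each of
which is taken frequently.
-/

namespace Pool.Agent.Results.MP_0dccba_ag.PrimeStandardForms

open MvPolynomial Pool.Agent.TH167.SHDefs Pool.Agent.Y536.SH

/-- `h¹` of the class `d H - ∑ w i E i`: the dimension of the linear system minus the virtual one. -/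
noncomputable def hOne {k : Type} [Field k] {s : ℕ} (P : Fin s → Fin 2 → k) (d : ℕ)
    (w : Fin s → ℕ) : ℤ := dimL P d w - virtdim d w

theorem result : ∃ N0 : ℕ, ∀ (k : Type) [Field k] [CharZero k] (s : ℕ), 4 ≤ s →
    ∀ (P : Fin s → Fin 2 → k),
      AlgebraicIndependent ℚ (fun ij : Fin s × Fin 2 => P ij.1 ij.2) →
      ∀ (d : ℕ) (w : Fin s → ℕ) (C : MvPolynomial (Fin 3) k), Curve P C d w →
        hOne P d w = 0 ∨ ∃ (d1 : ℕ) (w1 : Fin s → ℕ),
          Relation.ReflTransGen Quadratic (d, w) (d1, w1) ∧ Standard d1 w1 ∧
          Special P d1 w1 ∧ dimL P d1 w1 = dimL P d w ∧ ¬ Good N0 d1 w1 := by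
  obtain ⟨N0, hN0⟩ := tame_exp
  refine ⟨N0, fun k _ _ s hs P hP d w C hC => ?_⟩
  obtain ⟨r, rfl⟩ : ∃ r, s = r + 4 := ⟨s - 4, by omega⟩
  by_cases h : dimL P d w = virtdim d w
  · left
    unfold hOne
    omega
  · right
    exact prime_full (Q := fun d' w' => Good N0 d' w')
      (fun hP d1 w1 hr hG => good_exp hN0 hs hr hG hP) hP hC h

end Pool.Agent.Results.MP_0dccba_ag.PrimeStandardForms
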